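import Mathlib

/-!
Generalised star height: the classes `HS n` of languages of generalised star height at most `n`
and the theorem that an automaton all of whose letters, away from one state `q0`, move upwards
(or into `q0`) only recognises languages of height at most one.
-/

set_option autoImplicit false

namespace Pool.Agent.H936R2.SH

variable {α : Type*}

/-- Concatenation of languages. -/
def cat (L M : Set (List α)) : Set (List α) := Set.image2 (fun x y => x ++ y) L M

/-- Kleene star. -/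
def st (L : Set (List α)) : Set (List α) :=
  {w | ∃ l : List (List α), (∀ x ∈ l, x ∈ L) ∧ w = l.flatten}

/-- Languages of generalised star height at most `n`. -/
inductive HS : ℕ → Set (List α) → Prop
  | empty (n : ℕ) : HS n ∅
  | eps (n : ℕ) : HS n {[]}
  | letter (n : ℕ) (a : α) : HS n {[a]}
  | union {n : ℕ} {X Y : Set (List α)} : HS n X → HS n Y → HS n (X ∪ Y)
  | cat {n : ℕ} {X Y : Set (List α)} : HS n X → HS n Y → HS n (cat X Y)
  | compl {n : ℕ} {X : Set (List α)} : HS n X → HS n Xᶜ
  | star {n : ℕ} {X : Set (List α)} : HS n X → HS (n + 1) (st X)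

theorem HS.univ (n : ℕ) : HS n (Set.univ : Set (List α)) := by
  have := (HS.empty (α := α) n).compl
  rwa [Set.compl_empty] at this

theorem HS.inter {n : ℕ} {X Y : Set (List α)} (hX : HS n X) (hY : HS n Y) : HS n (X ∩ Y) := by
  have := (hX.compl.union hY.compl).compl
  rwa [Set.compl_union, compl_compl, compl_compl] at this

theorem HS.succ {n : ℕ} {X : Set (List α)} (h : HS n X) : HS (n + 1) X := by
  induction h with
  | empty n => exact .empty _
  | eps n => exact .eps _
  | letter n a => exact .letter _ a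
  | union _ _ h1 h2 => exact h1.union h2
  | cat _ _ h1 h2 => exact h1.cat h2
  | compl _ h1 => exact h1.compl
  | star _ h1 => exact h1.star

theorem HS.biUnion {n : ℕ} {ι : Type*} (s : Finset ι) (f : ι → Set (List α))
    (h : ∀ i ∈ s, HS n (f i)) : HS n (⋃ i ∈ s, f i) := by
  classical
  induction s using Finset.induction_on with
  | empty => simpa using HS.empty (α := α) n
  | insert a s ha ih =>
    rw [Finset.set_biUnion_insert]
    exact (h a (Finset.mem_insert_self _ _)).union
      (ih fun i hi => h i (Finset.mem_insert_of_mem hi))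

theorem HS.iUnion {n : ℕ} {ι : Type*} [Finite ι] (f : ι → Set (List α))
    (h : ∀ i, HS n (f i)) : HS n (⋃ i, f i) := by
  classical
  have := Fintype.ofFinite ι
  have := HS.biUnion (Finset.univ : Finset ι) f (fun i _ => h i)
  simpa using this

theorem HS.iInter {n : ℕ} {ι : Type*} [Finite ι] (f : ι → Set (List α))
    (h : ∀ i, HS n (f i)) : HS n (⋂ i, f i) := by
  have := (HS.iUnion (fun i => (f i)ᶜ) fun i => (h i).compl).compl
  rwa [Set.compl_iUnion, Set.iInter_congr fun i => compl_compl (f i)] at this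

/-- Words over a subset of the alphabet have height zero. -/
theorem HS.words [Finite α] (n : ℕ) (A : Set α) : HS n {w : List α | ∀ x ∈ w, x ∈ A} := by
  classical
  have h : HS n (⋃ b : α, if b ∈ A then (∅ : Set (List α)) else
      SH.cat (SH.cat Set.univ {[b]}) Set.univ) := by
    refine HS.iUnion _ fun b => ?_
    split_ifs
    · exact .empty n
    · exact ((HS.univ n).cat (.letter n b)).cat (HS.univ n)
  have h2 := h.compl
  convert h2 using 1
  ext w
  simp only [Set.mem_ofPred_eq, Set.compl_iUnion, Set.mem_iInter, Set.mem_compl_iff]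
  constructor
  · intro hw b
    split_ifs with hb
    · simp
    · rintro ⟨x, ⟨y, -, z, hz, rfl⟩, t, -, rfl⟩
      rw [Set.mem_singleton_iff] at hz
      subst hz
      exact hb (hw b (by simp))
  · intro hw x hx
    by_contra hxA
    have := hw x
    rw [if_neg hxA] at this
    apply this
    obtain ⟨s, t, rfl⟩ := List.append_of_mem hx
    exact ⟨s ++ [x], ⟨s, trivial, [x], rfl, rfl⟩, t, trivial, by simp⟩

section Automaton

variable {Q : Type*} (δ : Q → α → Q) (q0 : Q)

/-- No nonempty prefix of the word leads from `p` to `q0`. -/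
def Nv : Q → List α → Prop
  | _, [] => True
  | p, a :: w => δ p a ≠ q0 ∧ Nv (δ p a) w

/-- Path languages avoiding `q0`. -/
def Pa (p q : Q) : Set (List α) := {w | Nv δ q0 p w ∧ w.foldl δ p = q}

/-- First hits of `q0`. -/
def Fh (p : Q) : Set (List α) := {w | ∃ u b, w = u ++ [b] ∧ Nv δ q0 p u ∧ δ (u.foldl δ p) b = q0}

theorem Nv_or (p : Q) (w : List α) :
    Nv δ q0 p w ∨ ∃ f e, w = f ++ e ∧ f ∈ Fh δ q0 p := by
  induction w generalizing p with
  | nil => exact Or.inl trivial
  | cons a w ih =>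
    by_cases h : δ p a = q0
    · exact Or.inr ⟨[a], w, rfl, [], a, rfl, trivial, h⟩
    · rcases ih (δ p a) with h1 | ⟨f, e, rfl, u, b, rfl, hu, hb⟩
      · exact Or.inl ⟨h, h1⟩
      · exact Or.inr ⟨a :: (u ++ [b]), e, rfl, a :: u, b, rfl, ⟨h, hu⟩, hb⟩

theorem Fh_run {p : Q} {f : List α} (hf : f ∈ Fh δ q0 p) : f.foldl δ p = q0 := by
  obtain ⟨u, b, rfl, -, hb⟩ := hf
  simpa [List.foldl_append] using hb

theorem Fh_length {p : Q} {f : List α} (hf : f ∈ Fh δ q0 p) : 0 < f.length := by
  obtain ⟨u, b, rfl, -, hb⟩ := hf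
  simp

theorem st_run {w : List α} (hw : w ∈ st (Fh δ q0 q0)) : w.foldl δ q0 = q0 := by
  obtain ⟨l, hl, rfl⟩ := hw
  induction l with
  | nil => rfl
  | cons x l ih =>
    rw [List.flatten_cons, List.foldl_append, Fh_run δ q0 (hl x List.mem_cons_self)]
    exact ih fun y hy => hl y (List.mem_cons_of_mem _ hy)

theorem st_nil (L : Set (List α)) : [] ∈ st L := ⟨[], by simp, rfl⟩

theorem st_cons {L : Set (List α)} {x y : List α} (hx : x ∈ L) (hy : y ∈ st L) :
    x ++ y ∈ st L := by
  obtain ⟨l, hl, rfl⟩ := hy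
  exact ⟨x :: l, by simpa using ⟨hx, hl⟩, rfl⟩

/-- A word leading from `q0` to `q` decomposes into returns and a final avoiding path. -/
theorem run_decomp (q : Q) : ∀ (n : ℕ) (w : List α), w.length ≤ n → w.foldl δ q0 = q →
    ∃ k e, w = k ++ e ∧ k ∈ st (Fh δ q0 q0) ∧ e ∈ Pa δ q0 q0 q := by
  intro n
  induction n with
  | zero =>
    intro w hw hq
    have : w = [] := List.length_eq_zero_iff.1 (Nat.le_zero.1 hw)
    subst this
    exact ⟨[], [], rfl, st_nil _, trivial, hq⟩
  | succ n ih =>
    intro w hw hq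
    rcases Nv_or δ q0 q0 w with h | ⟨f, e, rfl, hf⟩
    · exact ⟨[], w, rfl, st_nil _, h, hq⟩
    · have hlen := Fh_length δ q0 hf
      rw [List.foldl_append, Fh_run δ q0 hf] at hq
      rw [List.length_append] at hw
      obtain ⟨k, e', rfl, hk, he'⟩ := ih e (by omega) hq
      exact ⟨f ++ k, e', by simp, st_cons hf hk, he'⟩

theorem run_eq (p q : Q) : {w : List α | w.foldl δ p = q} =
    Pa δ q0 p q ∪ cat (cat (Fh δ q0 p) (st (Fh δ q0 q0))) (Pa δ q0 q0 q) := by
  ext w
  constructor
  · intro hw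
    rcases Nv_or δ q0 p w with h | ⟨f, e, rfl, hf⟩
    · exact Or.inl ⟨h, hw⟩
    · right
      have hw' : (f ++ e).foldl δ p = q := hw
      rw [List.foldl_append, Fh_run δ q0 hf] at hw'
      obtain ⟨k, e', rfl, hk, he'⟩ := run_decomp δ q0 q _ e le_rfl hw'
      exact ⟨f ++ k, ⟨f, hf, k, hk, rfl⟩, e', he', by simp⟩
  · rintro (h | ⟨x, ⟨f, hf, k, hk, rfl⟩, e, he, rfl⟩)
    · exact h.2
    · change (f ++ k ++ e).foldl δ p = q
      rw [List.foldl_append, List.foldl_append, Fh_run δ q0 hf, st_run δ q0 hk]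
      exact he.2

theorem Fh_eq (p : Q) : Fh δ q0 p =
    ⋃ s : Q, ⋃ b : α, {w | δ s b = q0 ∧ w ∈ cat (Pa δ q0 p s) {[b]}} := by
  ext w
  simp only [Set.mem_iUnion, Set.mem_ofPred_eq]
  constructor
  · rintro ⟨u, b, rfl, hu, hb⟩
    exact ⟨_, b, hb, u, ⟨hu, rfl⟩, [b], rfl, rfl⟩
  · rintro ⟨s, b, hb, u, ⟨hu, hs⟩, v, hv, rfl⟩
    rw [Set.mem_singleton_iff] at hv
    subst hv
    exact ⟨u, b, rfl, hu, by rw [hs]; exact hb⟩

theorem HS.cond {n : ℕ} {X : Set (List α)} (P : Prop) (h : P → HS n X) :
    HS n {w | P ∧ w ∈ X} := by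
  by_cases hP : P
  · simpa [hP] using h hP
  · simpa [hP] using HS.empty (α := α) n

/-- If all path languages avoiding `q0` are star-free, all languages of the automaton have
height at most one. -/
theorem HS.run [Finite Q] [Finite α] (h : ∀ p q, HS 0 (Pa δ q0 p q)) (p q : Q) :
    HS 1 {w : List α | w.foldl δ p = q} := by
  have hF : ∀ p, HS 0 (Fh δ q0 p) := by
    intro p
    rw [Fh_eq]
    exact HS.iUnion _ fun s => HS.iUnion _ fun b =>
      HS.cond _ fun _ => (h p s).cat (.letter 0 b)
  rw [run_eq δ q0]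
  exact (h p q).succ.union (((hF p).succ.cat (hF q0).star).cat (h q0 q).succ)

/-- The recursive description of the avoiding path languages. -/
theorem Pa_step (p q : Q) : Pa δ q0 p q =
    {w | p = q ∧ w ∈ ({[]} : Set (List α))} ∪
      ⋃ a : α, {w | δ p a ≠ q0 ∧ w ∈ cat {[a]} (Pa δ q0 (δ p a) q)} := by
  ext w
  cases w with
  | nil =>
    simp only [Pa, Nv, List.foldl_nil, true_and, Set.mem_ofPred_eq, Set.mem_union,
      Set.mem_singleton_iff, and_true, Set.mem_iUnion]
    constructor
    · exact Or.inl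
    · rintro (h | ⟨a, -, x, hx, y, -, h⟩)
      · exact h
      · rw [Set.mem_singleton_iff] at hx
        subst hx
        simp at h
  | cons a w =>
    simp only [Set.mem_union, Set.mem_ofPred_eq, Set.mem_iUnion, Set.mem_singleton_iff]
    constructor
    · rintro ⟨⟨h1, h2⟩, h3⟩
      exact Or.inr ⟨a, h1, [a], rfl, w, ⟨h2, h3⟩, rfl⟩
    · rintro (⟨-, h⟩ | ⟨b, hb, x, hx, y, ⟨hy1, hy2⟩, h⟩)
      · simp at h
      · rw [Set.mem_singleton_iff] at hx
        subst hx
        simp only [List.cons_append, List.nil_append, List.cons.injEq] at h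
        obtain ⟨rfl, rfl⟩ := h
        exact ⟨⟨hb, hy1⟩, hy2⟩

/-- Splitting off the initial loops at `p ≠ q0`. -/
theorem Pa_loop (p q : Q) (hp : p ≠ q0) : Pa δ q0 p q =
    cat {w | ∀ x ∈ w, x ∈ {b | δ p b = p}}
      ({w | p = q ∧ w ∈ ({[]} : Set (List α))} ∪
      ⋃ a : α, {w | (δ p a ≠ q0 ∧ δ p a ≠ p) ∧ w ∈ cat {[a]} (Pa δ q0 (δ p a) q)}) := by
  ext w
  constructor
  · intro hw
    induction w with
    | nil =>
      refine ⟨[], by simp, [], Or.inl ⟨?_, rfl⟩, rfl⟩
      exact hw.2
    | cons a w ih =>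
      obtain ⟨⟨h1, h2⟩, h3⟩ := hw
      by_cases ha : δ p a = p
      · have h3' : w.foldl δ (δ p a) = q := h3
        rw [ha] at h2 h3'
        obtain ⟨x, hx, y, hy, hxy⟩ := ih ⟨h2, h3'⟩
        refine ⟨a :: x, ?_, y, hy, ?_⟩
        · intro z hz
          rcases List.mem_cons.1 hz with rfl | hz
          · exact ha
          · exact hx z hz
        · exact congrArg (fun z => a :: z) hxy
      · refine ⟨[], by simp, a :: w, Or.inr ?_, rfl⟩
        rw [Set.mem_iUnion]
        exact ⟨a, ⟨h1, ha⟩, [a], rfl, w, ⟨h2, h3⟩, rfl⟩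
  · rintro ⟨x, hx, y, hy, rfl⟩
    have hy' : y ∈ Pa δ q0 p q := by
      rw [Pa_step]
      rcases hy with hy | hy
      · exact Or.inl hy
      · right
        rw [Set.mem_iUnion] at hy ⊢
        obtain ⟨a, ⟨h1, -⟩, h2⟩ := hy
        exact ⟨a, h1, h2⟩
    clear hy
    induction x with
    | nil => exact hy'
    | cons a x ih =>
      have ha : δ p a = p := hx a List.mem_cons_self
      have := ih fun z hz => hx z (List.mem_cons_of_mem _ hz)
      refine ⟨⟨by rw [ha]; exact hp, by rw [ha]; exact this.1⟩, ?_⟩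
      change (x ++ y).foldl δ (δ p a) = q
      rw [ha]
      exact this.2

/-- If, away from `q0`, every letter moves upwards for some rank or leads to `q0`, then the
avoiding path languages are star-free. -/
theorem HS.path [Finite α] (r : Q → ℕ) (N : ℕ) (hN : ∀ q, r q ≤ N)
    (hr : ∀ p a, p ≠ q0 → δ p a = q0 ∨ δ p a = p ∨ r p < r (δ p a)) (p q : Q) :
    HS 0 (Pa δ q0 p q) := by
  have main : ∀ n p, p ≠ q0 → N - r p ≤ n → HS 0 (Pa δ q0 p q) := by
    intro n
    induction n with
    | zero =>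
      intro p hp hpn
      rw [Pa_loop δ q0 p q hp]
      refine (HS.words 0 _).cat ((HS.cond _ fun _ => .eps 0).union (HS.iUnion _ fun a =>
        HS.cond _ fun h => ?_))
      exfalso
      have h1 := hr p a hp
      have h2 := hN (δ p a)
      rcases h1 with h1 | h1 | h1
      · exact h.1 h1
      · exact h.2 h1
      · omega
    | succ n ih =>
      intro p hp hpn
      rw [Pa_loop δ q0 p q hp]
      refine (HS.words 0 _).cat ((HS.cond _ fun _ => .eps 0).union (HS.iUnion _ fun a =>
        HS.cond _ fun h => (HS.letter 0 a).cat (ih _ h.1 ?_)))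
      have h1 := hr p a hp
      have h2 := hN (δ p a)
      rcases h1 with h1 | h1 | h1
      · exact absurd h1 h.1
      · exact absurd h1 h.2
      · omega
  rw [Pa_step]
  exact (HS.cond _ fun _ => .eps 0).union (HS.iUnion _ fun a =>
    HS.cond _ fun h => (HS.letter 0 a).cat (main _ _ h le_rfl))

/-- Automata moving upwards away from `q0` have languages of height at most one. -/
theorem HS.run_of_rank [Finite Q] [Finite α] (r : Q → ℕ)
    (hr : ∀ p a, p ≠ q0 → δ p a = q0 ∨ δ p a = p ∨ r p < r (δ p a)) (p q : Q) :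
    HS 1 {w : List α | w.foldl δ p = q} := by
  obtain ⟨N, hN⟩ : ∃ N, ∀ q, r q ≤ N := by
    have := Fintype.ofFinite Q
    exact ⟨Finset.univ.sup r, fun q => Finset.le_sup (Finset.mem_univ q)⟩
  exact HS.run δ q0 (HS.path δ q0 r N hN hr) p q

end Automaton

end Pool.Agent.H936R2.SH
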