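import Pool.Agent.H936R2.SH.Basic

/-!
Thérien's language `A₂` has generalised star height at most one.
Letters: `false` is `σ`, `true` is `τ`.
-/

set_option autoImplicit false

namespace Pool.Agent.H936R2.SH

/-- The six-state automaton of `A₂`. -/
def d6 : Fin 6 → Bool → Fin 6
  | x, false => ![1, 0, 2, 4, 3, 5] x
  | x, true => ![2, 1, 3, 5, 4, 0] x

/-- The action of `σ = (0 1)` and `τ = (0 1 2 3)` on four points. -/
def d4 : Fin 4 → Bool → Fin 4
  | x, false => ![1, 0, 2, 3] x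
  | x, true => ![1, 2, 3, 0] x

/-- The parity of the number of `σ`. -/
def d2 : Fin 2 → Bool → Fin 2
  | x, false => ![1, 0] x
  | x, true => x

theorem HS_d4 (p q : Fin 4) : HS 1 {w : List Bool | w.foldl d4 p = q} :=
  HS.run_of_rank d4 0 (fun x => x.val) (by decide) p q

theorem HS_d2 (p q : Fin 2) : HS 1 {w : List Bool | w.foldl d2 p = q} :=
  HS.run_of_rank d2 0 (fun x => x.val) (by decide) p q

/-- The product state. -/
abbrev St := Fin 6 × (Fin 4 × Fin 4 × Fin 4 × Fin 4) × Fin 2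

def step (s : St) (a : Bool) : St :=
  (d6 s.1 a, (d4 s.2.1.1 a, d4 s.2.1.2.1 a, d4 s.2.1.2.2.1 a, d4 s.2.1.2.2.2 a), d2 s.2.2 a)

theorem foldl_step (w : List Bool) : ∀ s : St, w.foldl step s =
    (w.foldl d6 s.1, (w.foldl d4 s.2.1.1, w.foldl d4 s.2.1.2.1, w.foldl d4 s.2.1.2.2.1,
      w.foldl d4 s.2.1.2.2.2), w.foldl d2 s.2.2) := by
  induction w with
  | nil => intro s; rfl
  | cons a w ih => intro s; exact ih (step s a)

def start : St := (0, (0, 1, 2, 3), 0)

/-- The reachable product states. -/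
def reach : List St :=
  [(0, (0, 1, 2, 3), 0),
   (1, (1, 0, 2, 3), 1),
   (2, (1, 2, 3, 0), 0),
   (1, (2, 1, 3, 0), 1),
   (2, (0, 2, 3, 1), 1),
   (3, (2, 3, 0, 1), 0),
   (0, (2, 0, 3, 1), 0),
   (1, (3, 2, 0, 1), 1),
   (3, (1, 3, 0, 2), 1),
   (4, (2, 3, 1, 0), 1),
   (5, (3, 0, 1, 2), 0),
   (2, (3, 1, 0, 2), 0),
   (0, (3, 2, 1, 0), 0),
   (1, (0, 3, 1, 2), 1),
   (4, (0, 3, 1, 2), 0),
   (5, (2, 0, 1, 3), 1),
   (4, (3, 0, 2, 1), 1),
   (5, (3, 1, 0, 2), 1),
   (2, (3, 0, 1, 2), 1),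
   (3, (0, 2, 1, 3), 0),
   (2, (0, 3, 2, 1), 0),
   (0, (1, 3, 0, 2), 0),
   (4, (1, 0, 2, 3), 0),
   (5, (2, 1, 0, 3), 0),
   (0, (3, 1, 2, 0), 1),
   (3, (3, 1, 2, 0), 0),
   (4, (0, 1, 3, 2), 1),
   (0, (0, 2, 1, 3), 1),
   (3, (0, 1, 2, 3), 1),
   (4, (1, 2, 0, 3), 1),
   (5, (1, 3, 2, 0), 0),
   (2, (1, 3, 2, 0), 1),
   (3, (1, 0, 3, 2), 0),
   (2, (2, 0, 1, 3), 0),
   (4, (2, 1, 3, 0), 0),
   (1, (3, 0, 2, 1), 0),
   (5, (0, 2, 3, 1), 0),
   (1, (1, 2, 0, 3), 0),
   (5, (1, 2, 3, 0), 1),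
   (5, (0, 3, 2, 1), 1),
   (3, (2, 0, 3, 1), 1),
   (2, (2, 1, 0, 3), 1),
   (4, (3, 2, 0, 1), 0),
   (1, (0, 1, 3, 2), 0),
   (1, (2, 3, 1, 0), 0),
   (0, (2, 3, 0, 1), 1),
   (0, (1, 0, 3, 2), 1),
   (3, (3, 2, 1, 0), 1)]

theorem reach_start : start ∈ reach := by decide

theorem reach_step : ∀ s ∈ reach, ∀ a : Bool, step s a ∈ reach := by decide

theorem reach_run (w : List Bool) : w.foldl step start ∈ reach := by
  have : ∀ s ∈ reach, w.foldl step s ∈ reach := by
    induction w with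
    | nil => intro s hs; exact hs
    | cons a w ih => intro s hs; exact ih _ (reach_step s hs a)
  exact this _ reach_start

/-- The eight elements of the stabiliser. -/
def good : List ((Fin 4 × Fin 4 × Fin 4 × Fin 4) × Fin 2) :=
  [((0, 1, 2, 3), 0), ((1, 3, 0, 2), 0), ((2, 0, 3, 1), 0), ((3, 2, 1, 0), 0),
   ((0, 2, 1, 3), 1), ((1, 0, 3, 2), 1), ((2, 3, 0, 1), 1), ((3, 1, 2, 0), 1)]

theorem reach_good : ∀ s ∈ reach, (s.1 = 0 ↔ s.2 ∈ good) := by decide

theorem run6_iff (w : List Bool) : w.foldl d6 0 = 0 ↔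
    ((w.foldl d4 0, w.foldl d4 1, w.foldl d4 2, w.foldl d4 3), w.foldl d2 0) ∈ good := by
  have h := reach_good _ (reach_run w)
  rw [foldl_step] at h
  exact h

theorem HS_run6 : HS 1 {w : List Bool | w.foldl d6 0 = 0} := by
  have h : HS 1 (⋃ g ∈ good.toFinset, ({w : List Bool | w.foldl d4 0 = g.1.1} ∩
      {w | w.foldl d4 1 = g.1.2.1} ∩ {w | w.foldl d4 2 = g.1.2.2.1} ∩
      {w | w.foldl d4 3 = g.1.2.2.2} ∩ {w | w.foldl d2 0 = g.2})) :=
    HS.biUnion _ _ fun g _ =>
      ((((HS_d4 _ _).inter (HS_d4 _ _)).inter (HS_d4 _ _)).inter (HS_d4 _ _)).inter (HS_d2 _ _)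
  convert h using 1
  ext w
  simp only [Set.mem_ofPred_eq, Set.mem_iUnion, Set.mem_inter_iff, List.mem_toFinset, exists_prop]
  rw [run6_iff]
  constructor
  · intro hw
    exact ⟨_, hw, ⟨⟨⟨rfl, rfl⟩, rfl⟩, rfl⟩, rfl⟩
  · rintro ⟨⟨⟨a, b, c, d⟩, e⟩, hg, ⟨⟨⟨h1, h2⟩, h3⟩, h4⟩, h5⟩
    simp only at h1 h2 h3 h4 h5
    rw [h1, h2, h3, h4, h5]
    exact hg

/-- `στ*σ`. -/
def X : Set (List Bool) := cat (cat {[false]} (st {[true]})) {[false]}

/-- `τσ*τ`. -/
def Y : Set (List Bool) := cat (cat {[true]} (st {[false]})) {[true]}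

/-- Thérien's language, as in the problem. -/
def A2 : Set (List Bool) := st (X ∪ cat (cat Y (st X)) Y)

theorem mem_st_single {a : Bool} {w : List Bool} (h : w ∈ st ({[a]} : Set (List Bool))) :
    ∀ x ∈ w, x = a := by
  obtain ⟨l, hl, rfl⟩ := h
  intro x hx
  rw [List.mem_flatten] at hx
  obtain ⟨y, hy, hx⟩ := hx
  have := hl y hy
  rw [Set.mem_singleton_iff] at this
  subst this
  simpa using hx

theorem replicate_mem_st (a : Bool) (n : ℕ) :
    List.replicate n a ∈ st ({[a]} : Set (List Bool)) := by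
  induction n with
  | zero => exact st_nil _
  | succ n ih =>
    have := st_cons (L := ({[a]} : Set (List Bool))) (x := [a]) rfl ih
    simpa [List.replicate_succ] using this

theorem run_loop {a : Bool} {w : List Bool} (h : ∀ x ∈ w, x = a) (s : Fin 6) (hs : d6 s a = s) :
    w.foldl d6 s = s := by
  induction w with
  | nil => rfl
  | cons x w ih =>
    have hx : x = a := h x List.mem_cons_self
    subst hx
    rw [List.foldl_cons, hs]
    exact ih fun y hy => h y (List.mem_cons_of_mem _ hy)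

theorem run_XY {b c : Bool} {w : List Bool} (h : w ∈ cat (cat {[b]} (st {[c]})) {[b]})
    (s : Fin 6) (hs : d6 (d6 s b) c = d6 s b) : w.foldl d6 s = d6 (d6 s b) b := by
  obtain ⟨x, ⟨y, hy, z, hz, rfl⟩, t, ht, rfl⟩ := h
  rw [Set.mem_singleton_iff] at hy ht
  subst hy ht
  simp only [List.foldl_append, List.foldl_cons, List.foldl_nil]
  rw [run_loop (mem_st_single hz) _ hs]

theorem run_stX {w : List Bool} (h : w ∈ st X) (s : Fin 6) (hs : s = 0 ∨ s = 3) :
    w.foldl d6 s = s := by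
  obtain ⟨l, hl, rfl⟩ := h
  induction l with
  | nil => rfl
  | cons x l ih =>
    rw [List.flatten_cons, List.foldl_append]
    have : x.foldl d6 s = s := by
      rw [run_XY (hl x List.mem_cons_self) s (by rcases hs with rfl | rfl <;> decide)]
      rcases hs with rfl | rfl <;> decide
    rw [this]
    exact ih fun y hy => hl y (List.mem_cons_of_mem _ hy)

theorem A2_sub {w : List Bool} (h : w ∈ A2) : w.foldl d6 0 = 0 := by
  obtain ⟨l, hl, rfl⟩ := h
  induction l with
  | nil => rfl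
  | cons x l ih =>
    rw [List.flatten_cons, List.foldl_append]
    have : x.foldl d6 0 = 0 := by
      rcases hl x List.mem_cons_self with hx | ⟨y, ⟨y1, hy1, k, hk, rfl⟩, y2, hy2, rfl⟩
      · rw [run_XY hx 0 (by decide)]
        decide
      · rw [List.foldl_append, List.foldl_append, run_XY hy1 0 (by decide),
          run_stX hk _ (Or.inr (by decide)), run_XY hy2 _ (by decide)]
        decide
    rw [this]
    exact ih fun y hy => hl y (List.mem_cons_of_mem _ hy)

/-- Parsing: leaving a state `s` with loop `c`. -/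
theorem parse (s q : Fin 6) (c : Bool) (hs : d6 s c = s) (hq : s ≠ q) :
    ∀ w : List Bool, w.foldl d6 s = q →
      ∃ k w', w = List.replicate k c ++ (!c) :: w' ∧ w'.foldl d6 (d6 s (!c)) = q := by
  intro w
  induction w with
  | nil => intro h; exact absurd h hq
  | cons a w ih =>
    intro h
    by_cases ha : a = c
    · subst ha
      rw [List.foldl_cons, hs] at h
      obtain ⟨k, w', rfl, hw'⟩ := ih h
      exact ⟨k + 1, w', by simp [List.replicate_succ], hw'⟩
    · have ha' : a = !c := by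
        cases a <;> cases c <;> simp_all
      subst ha'
      exact ⟨0, w, rfl, h⟩

theorem mem_XY (b c : Bool) (k : ℕ) :
    b :: (List.replicate k c ++ [b]) ∈ cat (cat ({[b]} : Set (List Bool)) (st {[c]})) {[b]} :=
  ⟨[b] ++ List.replicate k c, ⟨[b], rfl, _, replicate_mem_st c k, rfl⟩, [b], rfl, by simp⟩

theorem A2_cons {x w : List Bool} (hx : x ∈ X ∪ cat (cat Y (st X)) Y) (hw : w ∈ A2) :
    x ++ w ∈ A2 := st_cons hx hw

theorem sup_A2 : ∀ (n : ℕ) (w : List Bool), w.length ≤ n →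
    (w.foldl d6 0 = 0 → w ∈ A2) ∧
    (w.foldl d6 3 = 0 → ∃ k y v, w = k ++ y ++ v ∧ k ∈ st X ∧ y ∈ Y ∧ v ∈ A2) := by
  intro n
  induction n with
  | zero =>
    intro w hw
    have : w = [] := List.length_eq_zero_iff.1 (Nat.le_zero.1 hw)
    subst this
    refine ⟨fun _ => st_nil _, fun h => ?_⟩
    exact absurd h (by decide)
  | succ n ih =>
    intro w hw
    constructor
    · intro h
      match w, hw, h with
      | [], _, _ => exact st_nil _
      | false :: w, hw, h =>
        obtain ⟨k, w', rfl, h'⟩ := parse 1 0 true (by decide) (by decide) w h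
        have h'' := (ih w' (by simp at hw; omega)).1 h'
        have := A2_cons (Or.inl (mem_XY false true k)) h''
        simpa using this
      | true :: w, hw, h =>
        obtain ⟨k, w', rfl, h'⟩ := parse 2 0 false (by decide) (by decide) w h
        obtain ⟨x, y, v, rfl, hx, hy, hv⟩ := (ih w' (by simp at hw; omega)).2 h'
        have h1 : true :: (List.replicate k false ++ [true]) ++ x ++ y ∈
            X ∪ cat (cat Y (st X)) Y := Or.inr ⟨_, ⟨_, mem_XY true false k, x, hx, rfl⟩, y, hy, rfl⟩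
        have := A2_cons h1 hv
        simpa using this
    · intro h
      match w, hw, h with
      | [], _, h => exact absurd h (by decide)
      | false :: w, hw, h =>
        obtain ⟨k, w', rfl, h'⟩ := parse 4 0 true (by decide) (by decide) w h
        obtain ⟨x, y, v, rfl, hx, hy, hv⟩ := (ih w' (by simp at hw; omega)).2 h'
        refine ⟨false :: (List.replicate k true ++ [false]) ++ x, y, v, by simp, ?_, hy, hv⟩
        exact st_cons (mem_XY false true k) hx
      | true :: w, hw, h =>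
        obtain ⟨k, w', rfl, h'⟩ := parse 5 0 false (by decide) (by decide) w h
        have h'' := (ih w' (by simp at hw; omega)).1 h'
        exact ⟨[], _, w', by simp, st_nil _, mem_XY true false k, h''⟩

theorem A2_eq : A2 = {w : List Bool | w.foldl d6 0 = 0} := by
  ext w
  exact ⟨A2_sub, fun h => (sup_A2 _ w le_rfl).1 h⟩

theorem HS_A2 : HS 1 A2 := by
  rw [A2_eq]
  exact HS_run6

end Pool.Agent.H936R2.SH
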